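import Pool.Agent.Helper25.OR.Uni
import Pool.Agent.Helper93.OR.Defs

/-!
# OR, block NZ: the displacements near the point
-/

set_option autoImplicit false

namespace Pool.Agent.Helper25.OR

open MeasureTheory Set Filter Topology
open Pool.Agent.Helper93.UG (zc sp)
open Pool.Agent.Helper57.NS (cnt)

/-- the range of the parameters -/
theorem regime {δ μ : ℝ} (hδ : 0 < δ) (hδ1 : δ ≤ 1) (hμ : 0 < μ) : ∃ T₀ : ℝ, ∀ T : ℝ, T₀ ≤ T → 100 ≤ T ∧ 1 ≤ Real.log T ∧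
    ∀ L : ℝ, 1 ≤ L → L ≤ Real.log T ^ (1 - δ) →
      4 * L * Real.log (Real.log T) ≤ Real.log T ∧ μ * Real.log L ≤ Real.log T ∧ L ≤ Real.log T := by
  have h1 : ∀ᶠ x : ℝ in atTop, ‖Real.log x‖ ≤ 1 / 4 * ‖x ^ δ‖ :=
    (isLittleO_log_rpow_atTop hδ).bound (by norm_num)
  have h2 : ∀ᶠ x : ℝ in atTop, ‖Real.log x‖ ≤ 1 / μ * ‖(id x : ℝ)‖ :=
    Real.isLittleO_log_id_atTop.bound (by positivity)
  have h3 := Real.tendsto_log_atTop.eventually (h1.and (h2.and (eventually_ge_atTop (1:ℝ))))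
  obtain ⟨T₀, hT₀⟩ := eventually_atTop.1 (h3.and (eventually_ge_atTop (100:ℝ)))
  refine ⟨T₀, fun T hT => ?_⟩
  obtain ⟨⟨ha, hb, hc⟩, hd⟩ := hT₀ T hT
  refine ⟨hd, hc, fun L hL1 hL => ?_⟩
  set x := Real.log T with hx
  have hx0 : 0 < x := by linarith
  have hlx : 0 ≤ Real.log x := Real.log_nonneg hc
  rw [Real.norm_eq_abs, abs_of_nonneg hlx, Real.norm_eq_abs, abs_of_pos (Real.rpow_pos_of_pos hx0 _)] at ha
  rw [Real.norm_eq_abs, abs_of_nonneg hlx, Real.norm_eq_abs, id, abs_of_pos hx0] at hb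
  have hxd : x ^ (1 - δ) ≤ x := by
    calc x ^ (1 - δ) ≤ x ^ (1 : ℝ) := Real.rpow_le_rpow_of_exponent_le hc (by linarith)
      _ = x := Real.rpow_one x
  have hLx : L ≤ x := hL.trans hxd
  refine ⟨?_, ?_, hLx⟩
  · calc 4 * L * Real.log x ≤ 4 * x ^ (1 - δ) * (1 / 4 * x ^ δ) := by
          refine mul_le_mul (by linarith) ha hlx (by positivity)
      _ = x ^ (1 - δ) * x ^ δ := by ring
      _ = x := by
          rw [← Real.rpow_add hx0]
          simp
  · have h4 : Real.log L ≤ Real.log x := Real.log_le_log (by linarith) hLx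
    calc μ * Real.log L ≤ μ * (1 / μ * x) := mul_le_mul_of_nonneg_left (h4.trans hb) hμ.le
      _ = x := by field_simp

/-- **NZ**: the displacements near the point -/
theorem nz_main {δ e : ℝ} (hδ : 0 < δ) (hδ1 : δ ≤ 1) (he : 0 < e) : ∃ e₁ c C T₀ : ℝ, 0 < e₁ ∧ e₁ ≤ 1 / 2 ∧ 0 < c ∧ 1 ≤ C ∧
    ∀ T L : ℝ, T₀ ≤ T → C ≤ L → L ≤ Real.log T ^ (1 - δ) →
    ∃ E : Set ℝ, volume E ≤ ENNReal.ofReal (C * L ^ (-c) * T) ∧ ∀ t ∈ Icc T (2 * T), t ∉ E → ∀ y ∈ Icc 0 (L ^ e₁),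
      |cnt T t (Icc 0 y) - y| ≤ e * Real.log L ∧ |cnt T t (Icc (-y) 0) - y| ≤ e * Real.log L := by
  obtain ⟨C, κ, hC, hκ, H⟩ := one_window
  set μ := e / (4 * C) with hμdef
  set ν := e / 4 with hνdef
  have hμ : 0 < μ := by positivity
  have hν : 0 < ν := by positivity
  set e₁ := min (1 / 2) (min (κ * μ / 4) (16 * ν ^ 2 * Real.exp (-(8 * κ)) / μ / 2)) with he₁
  have he₁0 : 0 < e₁ := by
    rw [he₁]
    refine lt_min (by norm_num) (lt_min (by positivity) (by positivity))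
  have he₁1 : e₁ ≤ 1 / 2 := min_le_left _ _
  have he₁2 : e₁ ≤ κ * μ / 4 := (min_le_right _ _).trans (min_le_left _ _)
  have he₁3 : e₁ ≤ 16 * ν ^ 2 * Real.exp (-(8 * κ)) / μ / 2 := (min_le_right _ _).trans (min_le_right _ _)
  have hq : μ * (2 * e₁) / (16 * ν ^ 2) ≤ Real.exp (-(8 * κ)) := by
    rw [div_le_iff₀ (by positivity)]
    rw [div_div, le_div_iff₀ (by positivity)] at he₁3
    linarith
  obtain ⟨K, L₀, T₁, hK, hL₀, H⟩ := H (2 * e₁) μ ν (8 * κ) (by positivity) hμ hν (by positivity) hq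
  obtain ⟨T₂, hT₂⟩ := regime (δ := δ) (μ := μ) hδ hδ1 hμ
  refine ⟨e₁, κ * μ / 2, max (max L₀ (32 * K)) (max (Real.exp (6 / e)) (Real.exp (Real.log 4 / e₁))), max T₁ T₂,
    he₁0, he₁1, by positivity, (by linarith : (1:ℝ) ≤ L₀).trans ((le_max_left _ _).trans (le_max_left _ _)),
    fun T L hT hL hLT => ?_⟩
  have hT1 : T₁ ≤ T := (le_max_left _ _).trans hT
  have hT2 : T₂ ≤ T := (le_max_right _ _).trans hT
  have hL1 : L₀ ≤ L := (le_max_left _ _).trans ((le_max_left _ _).trans hL)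
  have hL3 : Real.exp (6 / e) ≤ L := (le_max_left _ _).trans ((le_max_right _ _).trans hL)
  have hL4 : Real.exp (Real.log 4 / e₁) ≤ L := (le_max_right _ _).trans ((le_max_right _ _).trans hL)
  have hL5 : 3 ≤ L := hL₀.trans hL1
  have hL0 : 0 < L := by linarith
  obtain ⟨hT100, hlogT, hreg⟩ := hT₂ T hT2
  obtain ⟨hr1, hr2, hr3⟩ := hreg L (by linarith) hLT
  have hT0 : 0 < T := by linarith
  have hl3 : 6 / e ≤ Real.log L := by rwa [Real.le_log_iff_exp_le hL0]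
  have hl4 : Real.log 4 / e₁ ≤ Real.log L := by rwa [Real.le_log_iff_exp_le hL0]
  have hl : 0 < Real.log L := Real.log_pos (by linarith)
  have hLe : 1 ≤ L ^ e₁ := Real.one_le_rpow (by linarith) he₁0.le
  have hLe2 : L ^ e₁ ≤ L := by
    calc L ^ e₁ ≤ L ^ (1 : ℝ) := Real.rpow_le_rpow_of_exponent_le (by linarith) (by linarith)
      _ = L := Real.rpow_one L
  set N := ⌈L ^ e₁⌉₊ with hN
  have hN1 : L ^ e₁ ≤ N := Nat.le_ceil _
  have hN2 : (N : ℝ) < L ^ e₁ + 1 := Nat.ceil_lt_add_one (by linarith)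
  have hN3 : (N : ℝ) + 2 ≤ 4 * L ^ e₁ := by linarith
  have hlog0 : 0 ≤ Real.log (Real.log T) := Real.log_nonneg hlogT
  have hp : ∀ c : ℝ, 1 ≤ c → c ≤ N + 2 →
      volume {t : ℝ | T / 2 ≤ t ∧ t ≤ 3 * T ∧ (ν + C * μ) * Real.log L ≤ |(zc (Ico t (t + c * sp T)) : ℝ) - c|} ≤
        ENNReal.ofReal ((K * L ^ (-(κ * μ)) + K * L ^ (-(8 * κ * μ / 8))) * T) := by
    intro c hc1 hc2
    refine H T L c hT1 hL1 hc1 ?_ hr2 ?_
    · refine le_trans (mul_le_mul_of_nonneg_right ?_ hlog0) hr1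
      linarith
    · have h1 : Real.log c ≤ Real.log (4 * L ^ e₁) := Real.log_le_log (by linarith) (hc2.trans hN3)
      rw [Real.log_mul (by norm_num) (by positivity), Real.log_rpow hL0] at h1
      rw [div_le_iff₀ he₁0] at hl4
      linarith
  have hsp : ((N : ℝ) + 2) * sp T ≤ T / 2 := by
    unfold sp
    have h1 : (N : ℝ) + 2 ≤ 4 * Real.log T := by linarith
    have h2 : ((N : ℝ) + 2) * (2 * Real.pi / Real.log T) ≤ 4 * Real.log T * (2 * Real.pi / Real.log T) :=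
      mul_le_mul_of_nonneg_right h1 (by positivity)
    have h3 : 4 * Real.log T * (2 * Real.pi / Real.log T) = 8 * Real.pi := by
      field_simp
      ring
    rw [h3] at h2
    have := Real.pi_lt_four
    linarith
  obtain ⟨E, hE, hgood⟩ := union (N := N) (by linarith : (1:ℝ) < T) (by positivity) hsp hp
  refine ⟨E, hE.trans (ENNReal.ofReal_le_ofReal ?_), fun t ht htE y hy => ?_⟩
  · have h8 : 8 * κ * μ / 8 = κ * μ := by ring
    rw [h8]
    have h1 : ((N : ℝ) + 2) ^ 2 ≤ 16 * (L ^ e₁) ^ 2 := by nlinarith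
    have h2 : (L ^ e₁) ^ 2 ≤ L ^ (κ * μ / 2) := by
      rw [← Real.rpow_natCast, ← Real.rpow_mul hL0.le]
      refine Real.rpow_le_rpow_of_exponent_le (by linarith) ?_
      push_cast
      linarith
    have h3 : 0 ≤ L ^ (-(κ * μ)) := by positivity
    have h4 : L ^ (κ * μ / 2) * L ^ (-(κ * μ)) = L ^ (-(κ * μ / 2)) := by
      rw [← Real.rpow_add hL0]
      congr 1
      ring
    have h5 : 32 * K ≤ max (max L₀ (32 * K)) (max (Real.exp (6 / e)) (Real.exp (Real.log 4 / e₁))) :=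
      (le_max_right _ _).trans (le_max_left _ _)
    calc ((N : ℝ) + 2) ^ 2 * ((K * L ^ (-(κ * μ)) + K * L ^ (-(κ * μ))) * T)
        ≤ (16 * L ^ (κ * μ / 2)) * ((K * L ^ (-(κ * μ)) + K * L ^ (-(κ * μ))) * T) := by
          refine mul_le_mul_of_nonneg_right ?_ (by positivity)
          linarith
      _ = 32 * K * (L ^ (κ * μ / 2) * L ^ (-(κ * μ))) * T := by ring
      _ = 32 * K * L ^ (-(κ * μ / 2)) * T := by rw [h4]
      _ ≤ _ := by
          refine mul_le_mul_of_nonneg_right (mul_le_mul_of_nonneg_right h5 (by positivity)) hT0.le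
  · have h1 := hgood t ht htE y ⟨hy.1, hy.2.trans hN1⟩
    have h2 : (ν + C * μ) * Real.log L + 3 ≤ e * Real.log L := by
      have h3 : ν + C * μ = e / 2 := by
        rw [hνdef, hμdef]
        field_simp
        ring
      rw [h3]
      rw [div_le_iff₀ he] at hl3
      linarith
    exact ⟨h1.1.trans h2, h1.2.trans h2⟩

end Pool.Agent.Helper25.OR
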