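import Pool.Agent.Helper25.OR.Win
import Pool.Agent.Helper57.NS.Defs

/-!
# OR: all windows of length at most `J` at the point, from the windows of integral length
-/

set_option autoImplicit false

namespace Pool.Agent.Helper25.OR

open MeasureTheory Set Filter Topology
open Pool.Agent.Helper93.UG (zc sp)
open Pool.Agent.Helper57.NS (cnt)
open Pool.Agent.Helper56.UG (zc_mono)

theorem sp_pos {T : ℝ} (hT : 1 < T) : 0 < sp T := by
  unfold sp
  have := Real.log_pos hT
  positivity

/-- the bad event of one window, the starting point shifted by `h` mean spacings -/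
def bad (T A h c : ℝ) : Set ℝ :=
  {t : ℝ | T ≤ t ∧ t ≤ 2 * T ∧ A ≤ |(zc (Ico (t - h * sp T) (t - h * sp T + c * sp T)) : ℝ) - c|}

theorem bad_le {T A h c p : ℝ} (hh : 0 ≤ h) (hs : h * sp T ≤ T / 2) (hsp : 0 < sp T)
    (H : volume {t : ℝ | T / 2 ≤ t ∧ t ≤ 3 * T ∧ A ≤ |(zc (Ico t (t + c * sp T)) : ℝ) - c|} ≤ ENNReal.ofReal p) :
    volume (bad T A h c) ≤ ENNReal.ofReal p := by
  refine le_trans ?_ H
  have h1 := measure_preimage_add_right (volume : Measure ℝ) (-(h * sp T))
    {t : ℝ | T / 2 ≤ t ∧ t ≤ 3 * T ∧ A ≤ |(zc (Ico t (t + c * sp T)) : ℝ) - c|}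
  rw [← h1]
  refine measure_mono fun t ht => ?_
  obtain ⟨ht1, ht2, ht3⟩ := ht
  have h0 : 0 ≤ h * sp T := by positivity
  refine ⟨?_, ?_, ?_⟩
  · show T / 2 ≤ t + -(h * sp T)
    linarith
  · show t + -(h * sp T) ≤ 3 * T
    linarith
  · show A ≤ |(zc (Ico (t + -(h * sp T)) (t + -(h * sp T) + c * sp T)) : ℝ) - c|
    rw [← sub_eq_add_neg]
    exact ht3

/-- all windows at the point, of length at most `N`, to the right and to the left -/
theorem union {T A p : ℝ} {N : ℕ} (hT : 1 < T) (hA : 0 ≤ A) (hs : ((N : ℝ) + 2) * sp T ≤ T / 2)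
    (H : ∀ c : ℝ, 1 ≤ c → c ≤ N + 2 →
      volume {t : ℝ | T / 2 ≤ t ∧ t ≤ 3 * T ∧ A ≤ |(zc (Ico t (t + c * sp T)) : ℝ) - c|} ≤ ENNReal.ofReal p) :
    ∃ E : Set ℝ, volume E ≤ ENNReal.ofReal (((N : ℝ) + 2) ^ 2 * p) ∧ ∀ t ∈ Icc T (2 * T), t ∉ E → ∀ y ∈ Icc (0 : ℝ) N,
      |cnt T t (Icc 0 y) - y| ≤ A + 3 ∧ |cnt T t (Icc (-y) 0) - y| ≤ A + 3 := by
  have hsp := sp_pos hT
  have hT0 : 0 < T := by linarith
  set P : Finset (ℕ × ℕ) := Finset.range (N + 2) ×ˢ Finset.range (N + 2) with hP
  refine ⟨⋃ x ∈ P, bad T A (x.1 : ℝ) ((x.2 : ℝ) + 1), ?_, fun t ht htE y hy => ?_⟩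
  · refine (measure_biUnion_finset_le P _).trans ?_
    have h1 : ∀ x ∈ P, volume (bad T A (x.1 : ℝ) ((x.2 : ℝ) + 1)) ≤ ENNReal.ofReal p := by
      intro x hx
      rw [hP, Finset.mem_product, Finset.mem_range, Finset.mem_range] at hx
      have hx1 : (x.1 : ℝ) ≤ N + 2 := by exact_mod_cast hx.1.le
      have hx2 : (x.2 : ℝ) + 1 ≤ N + 2 := by exact_mod_cast hx.2
      refine bad_le (Nat.cast_nonneg _) ((mul_le_mul_of_nonneg_right hx1 hsp.le).trans hs) hsp (H _ ?_ hx2)
      have : (0:ℝ) ≤ (x.2 : ℝ) := Nat.cast_nonneg _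
      linarith
    refine (Finset.sum_le_sum h1).trans ?_
    rw [Finset.sum_const, hP, Finset.card_product, Finset.card_range, nsmul_eq_mul,
      ← ENNReal.ofReal_natCast, ← ENNReal.ofReal_mul (Nat.cast_nonneg _)]
    refine ENNReal.ofReal_le_ofReal (le_of_eq ?_)
    push_cast
    ring
  · -- the good windows
    have hgood : ∀ h c : ℕ, h < N + 2 → 1 ≤ c → c ≤ N + 2 →
        |(zc (Ico (t - h * sp T) (t - h * sp T + c * sp T)) : ℝ) - c| < A := by
      intro h c hh hc1 hc2
      by_contra hcon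
      rw [not_lt] at hcon
      refine htE (mem_biUnion (x := (h, c - 1)) ?_ ?_)
      · show (h, c - 1) ∈ (P : Set (ℕ × ℕ))
        rw [Finset.mem_coe, hP, Finset.mem_product, Finset.mem_range, Finset.mem_range]
        exact ⟨hh, by omega⟩
      · have hc : (((c - 1 : ℕ) : ℝ) + 1) = c := by
          rw [Nat.cast_sub hc1]
          push_cast
          ring
        show t ∈ bad T A ((h : ℕ) : ℝ) (((c - 1 : ℕ) : ℝ) + 1)
        rw [hc]
        exact ⟨ht.1, ht.2, hcon⟩
    set j := ⌊y⌋₊ with hj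
    have hj1 : (j : ℝ) ≤ y := Nat.floor_le hy.1
    have hj2 : y < j + 1 := Nat.lt_floor_add_one y
    have hjN : j ≤ N := by exact_mod_cast hj1.trans hy.2
    have hjs : (j : ℝ) * sp T ≤ y * sp T := mul_le_mul_of_nonneg_right hj1 hsp.le
    have hjs2 : y * sp T < ((j : ℝ) + 1) * sp T := mul_lt_mul_of_pos_right hj2 hsp
    have hzero : ∀ I : Set ℝ, (0 : ℝ) ≤ zc I := fun I => Nat.cast_nonneg _
    constructor
    · -- to the right
      have hup : cnt T t (Icc 0 y) ≤ (zc (Ico (t - (0:ℕ) * sp T) (t - (0:ℕ) * sp T + ((j + 1 : ℕ) : ℝ) * sp T)) : ℝ) := by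
        unfold cnt
        refine Nat.cast_le.2 (zc_mono (b := t - (0:ℕ) * sp T + ((j + 1 : ℕ) : ℝ) * sp T) ?_ Ico_subset_Icc_self)
        intro u hu
        have hu' : (u - t) / sp T ∈ Icc 0 y := hu
        rw [mem_Icc, le_div_iff₀ hsp, div_le_iff₀ hsp] at hu'
        rw [mem_Ico]
        push_cast
        constructor <;> nlinarith [hu'.1, hu'.2]
      have h1 := hgood 0 (j + 1) (by omega) (by omega) (by omega)
      rw [abs_lt] at h1
      have h1' := h1.2
      push_cast at h1' hup
      have hlow : y - 1 - A ≤ cnt T t (Icc 0 y) := by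
        rcases Nat.eq_zero_or_pos j with h0 | h0
        · have h2 : (0:ℝ) ≤ cnt T t (Icc 0 y) := by
            unfold cnt
            exact Nat.cast_nonneg _
          rw [h0] at hj2
          push_cast at hj2
          linarith
        · have h2 := hgood 0 j (by omega) h0 (by omega)
          rw [abs_lt] at h2
          have h3 : (zc (Ico (t - (0:ℕ) * sp T) (t - (0:ℕ) * sp T + (j : ℝ) * sp T)) : ℝ) ≤ cnt T t (Icc 0 y) := by
            unfold cnt
            refine Nat.cast_le.2 (zc_mono (a := t) (b := t + y * sp T) ?_ ?_)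
            · intro u hu
              rw [mem_Ico] at hu
              push_cast at hu
              show (u - t) / sp T ∈ Icc 0 y
              rw [mem_Icc, le_div_iff₀ hsp, div_le_iff₀ hsp]
              constructor <;> nlinarith [hu.1, hu.2]
            · intro u hu
              have hu' : (u - t) / sp T ∈ Icc 0 y := hu
              rw [mem_Icc, le_div_iff₀ hsp, div_le_iff₀ hsp] at hu'
              rw [mem_Icc]
              constructor <;> nlinarith [hu'.1, hu'.2]
          linarith [h2.1]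
      rw [abs_le]
      constructor <;> linarith
    · -- to the left
      have hup : cnt T t (Icc (-y) 0) ≤
          (zc (Ico (t - ((j + 1 : ℕ) : ℝ) * sp T) (t - ((j + 1 : ℕ) : ℝ) * sp T + ((j + 2 : ℕ) : ℝ) * sp T)) : ℝ) := by
        unfold cnt
        refine Nat.cast_le.2 (zc_mono (b := t - ((j + 1 : ℕ) : ℝ) * sp T + ((j + 2 : ℕ) : ℝ) * sp T) ?_ Ico_subset_Icc_self)
        intro u hu
        have hu' : (u - t) / sp T ∈ Icc (-y) 0 := hu
        rw [mem_Icc, le_div_iff₀ hsp, div_le_iff₀ hsp] at hu'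
        rw [mem_Ico]
        push_cast
        constructor <;> nlinarith [hu'.1, hu'.2]
      have h1 := hgood (j + 1) (j + 2) (by omega) (by omega) (by omega)
      rw [abs_lt] at h1
      have h1' := h1.2
      push_cast at h1' hup
      have hlow : y - 1 - A ≤ cnt T t (Icc (-y) 0) := by
        rcases Nat.eq_zero_or_pos j with h0 | h0
        · have h2 : (0:ℝ) ≤ cnt T t (Icc (-y) 0) := by
            unfold cnt
            exact Nat.cast_nonneg _
          rw [h0] at hj2
          push_cast at hj2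
          linarith
        · have h2 := hgood j j (by omega) h0 (by omega)
          rw [abs_lt] at h2
          have h3 : (zc (Ico (t - (j : ℝ) * sp T) (t - (j : ℝ) * sp T + (j : ℝ) * sp T)) : ℝ) ≤ cnt T t (Icc (-y) 0) := by
            unfold cnt
            refine Nat.cast_le.2 (zc_mono (a := t - y * sp T) (b := t) ?_ ?_)
            · intro u hu
              rw [mem_Ico] at hu
              show (u - t) / sp T ∈ Icc (-y) 0
              rw [mem_Icc, le_div_iff₀ hsp, div_le_iff₀ hsp]
              constructor <;> nlinarith [hu.1, hu.2]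
            · intro u hu
              have hu' : (u - t) / sp T ∈ Icc (-y) 0 := hu
              rw [mem_Icc, le_div_iff₀ hsp, div_le_iff₀ hsp] at hu'
              rw [mem_Icc]
              constructor <;> nlinarith [hu'.1, hu'.2]
          linarith [h2.1]
      rw [abs_le]
      constructor <;> linarith

end Pool.Agent.Helper25.OR
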