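import Pool.Agent.Helper24.TX.Asm
import Pool.Agent.Helper56.UG.Cv

/-!
# OR: the number of the zeros in one window of length at most `L`, in terms of `log L`
-/

set_option autoImplicit false

namespace Pool.Agent.Helper25.OR

open MeasureTheory Set Filter Topology
open Pool.Agent.Helper93.UG (zc sp)

/-- one window: `master` with `M = μ log L`, `V = ν log L`, `k = ⌊μ log L / 8⌋` -/
theorem one_window : ∃ C κ : ℝ, 0 < C ∧ 0 < κ ∧ ∀ θ μ ν r : ℝ, 0 < θ → 0 < μ → 0 < ν → 0 < r →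
    μ * θ / (16 * ν ^ 2) ≤ Real.exp (-r) → ∃ K L₀ T₀ : ℝ, 0 < K ∧ 3 ≤ L₀ ∧ ∀ T L c : ℝ, T₀ ≤ T → L₀ ≤ L → 1 ≤ c →
      c * Real.log (Real.log T) ≤ Real.log T → μ * Real.log L ≤ Real.log T → Real.log c ≤ θ * Real.log L →
      volume {t : ℝ | T / 2 ≤ t ∧ t ≤ 3 * T ∧
          (ν + C * μ) * Real.log L ≤ |(zc (Ico t (t + c * sp T)) : ℝ) - c|} ≤
        ENNReal.ofReal ((K * L ^ (-(κ * μ)) + K * L ^ (-(r * μ / 8))) * T) := by
  obtain ⟨C, κ, M₀, T₀, hC, hκ, hM₀, H⟩ := Pool.Agent.Helper24.TX.master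
  refine ⟨C, κ, hC, hκ, fun θ μ ν r hθ hμ hν hr hq => ?_⟩
  refine ⟨C * Real.exp r, max 3 (max (Real.exp (M₀ / μ)) (Real.exp (C / θ))), max T₀ 1, by positivity, le_max_left _ _,
    fun T L c hT hL hc hcT hLT hcL => ?_⟩
  have hT₀ : T₀ ≤ T := (le_max_left _ _).trans hT
  have hT1 : 1 ≤ T := (le_max_right _ _).trans hT
  have hL3 : 3 ≤ L := (le_max_left _ _).trans hL
  have hL0 : 0 < L := by linarith
  have hL1 : Real.exp (M₀ / μ) ≤ L := (le_max_left _ _).trans ((le_max_right _ _).trans hL)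
  have hL2 : Real.exp (C / θ) ≤ L := (le_max_right _ _).trans ((le_max_right _ _).trans hL)
  set l := Real.log L with hl
  have hl1 : M₀ / μ ≤ l := by rwa [hl, Real.le_log_iff_exp_le hL0]
  have hl2 : C / θ ≤ l := by rwa [hl, Real.le_log_iff_exp_le hL0]
  have hl0 : 0 < l := Real.log_pos (by linarith)
  have hM : M₀ ≤ μ * l := by
    rw [div_le_iff₀ hμ] at hl1
    linarith
  have hCl : C ≤ θ * l := by
    rw [div_le_iff₀ hθ] at hl2
    linarith
  have hV : 0 < ν * l := mul_pos hν hl0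
  set k := ⌊μ * l / 8⌋₊ with hk
  have hk1 : (k : ℝ) ≤ μ * l / 8 := Nat.floor_le (by positivity)
  have hk2 : μ * l / 8 - 1 ≤ k := (Nat.sub_one_lt_floor _).le
  have h := H T c (μ * l) hT₀ hc hcT hM hLT (ν * l) k hV hk1
  have hset : {t : ℝ | T / 2 ≤ t ∧ t ≤ 3 * T ∧ (ν + C * μ) * l ≤ |(zc (Ico t (t + c * sp T)) : ℝ) - c|} =
      {t : ℝ | T / 2 ≤ t ∧ t ≤ 3 * T ∧ ν * l + C * (μ * l) ≤ |(zc (Ico t (t + c * sp T)) : ℝ) - c|} := by
    ext t
    simp only [mem_ofPred_eq]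
    rw [show (ν + C * μ) * l = ν * l + C * (μ * l) by ring]
  rw [hset]
  refine h.trans (ENNReal.ofReal_le_ofReal (mul_le_mul_of_nonneg_right ?_ (by linarith)))
  set x := 2 / Real.pi ^ 2 * (Real.log c + C) / (ν * l) ^ 2 with hx
  have hlc : 0 ≤ Real.log c := Real.log_nonneg hc
  have hx0 : 0 ≤ x := by positivity
  have hpi : 2 / Real.pi ^ 2 ≤ 1 / 4 := by
    rw [div_le_div_iff₀ (by positivity) (by norm_num)]
    nlinarith [Real.pi_gt_three]
  have hx1 : x ≤ θ / (2 * ν ^ 2 * l) := by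
    rw [hx, div_le_div_iff₀ (by positivity) (by positivity)]
    have h1 : 2 / Real.pi ^ 2 * (Real.log c + C) ≤ 1 / 4 * (Real.log c + C) :=
      mul_le_mul_of_nonneg_right hpi (by linarith)
    have h2 : 1 / 4 * (Real.log c + C) ≤ θ * l / 2 := by linarith
    have h3 : 0 ≤ 2 * ν ^ 2 * l := by positivity
    calc 2 / Real.pi ^ 2 * (Real.log c + C) * (2 * ν ^ 2 * l) ≤ (θ * l / 2) * (2 * ν ^ 2 * l) :=
          mul_le_mul_of_nonneg_right (h1.trans h2) h3
      _ = θ * (ν * l) ^ 2 := by ring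
  have hkx : (k : ℝ) * x ≤ Real.exp (-r) := by
    refine le_trans ?_ hq
    calc (k : ℝ) * x ≤ (μ * l / 8) * (θ / (2 * ν ^ 2 * l)) := mul_le_mul hk1 hx1 hx0 (by positivity)
      _ = μ * θ / (16 * ν ^ 2) := by field_simp; norm_num
  have hfac : (k.factorial : ℝ) * x ^ k ≤ Real.exp r * L ^ (-(r * μ / 8)) := by
    have h1 : (k.factorial : ℝ) ≤ (k : ℝ) ^ k := by exact_mod_cast Nat.factorial_le_pow k
    calc (k.factorial : ℝ) * x ^ k ≤ (k : ℝ) ^ k * x ^ k := mul_le_mul_of_nonneg_right h1 (by positivity)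
      _ = ((k : ℝ) * x) ^ k := (mul_pow _ _ _).symm
      _ ≤ Real.exp (-r) ^ k := pow_le_pow_left₀ (by positivity) hkx k
      _ = Real.exp (-(r * k)) := by rw [← Real.exp_nat_mul]; ring_nf
      _ ≤ Real.exp (r + -(r * μ / 8) * l) := by
          apply Real.exp_le_exp.2
          nlinarith
      _ = Real.exp r * L ^ (-(r * μ / 8)) := by
          rw [Real.exp_add, Real.rpow_def_of_pos hL0, ← hl]
          ring_nf
  have he : Real.exp (-(κ * (μ * l))) = L ^ (-(κ * μ)) := by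
    rw [Real.rpow_def_of_pos hL0, ← hl]
    ring_nf
  have her : 1 ≤ Real.exp r := Real.one_le_exp hr.le
  have hp : 0 ≤ L ^ (-(κ * μ)) := (Real.rpow_pos_of_pos hL0 _).le
  rw [he]
  have h4 : C * L ^ (-(κ * μ)) ≤ C * Real.exp r * L ^ (-(κ * μ)) := by
    refine mul_le_mul_of_nonneg_right ?_ hp
    nlinarith
  have h5 : C * (k.factorial * x ^ k) ≤ C * Real.exp r * L ^ (-(r * μ / 8)) := by
    rw [mul_assoc]
    exact mul_le_mul_of_nonneg_left hfac hC.le
  linarith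

end Pool.Agent.Helper25.OR
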